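import Pool.Agent.Helper83.TR.SpinMain
import Pool.Agent.Helper4.UN.Wa

/-!
Sharpness of the unitary theorem for two equal numbers: the half-spin representations.
-/

set_option linter.unusedSimpArgs false
set_option linter.unusedSectionVars false

open Module MTPairs MTP TRSpin

namespace UN.EE

variable {K : Type*} [Field K] {n : ℕ}

/-- The space of even dimension of Clifford vectors. -/
def V0 (K : Type*) [Field K] (n : ℕ) : Submodule K (Matrix (Sx n) (Sx n) K) :=
  Submodule.span K {v | ∃ j, ∃ B ∈ AC K, v = jw j B}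

lemma V0_le : V0 K n ≤ VS K n := Submodule.span_mono fun _ hv => Or.inl hv

lemma jw_mem0 (j : Fin n) {B : Matrix (Fin 2) (Fin 2) K} (hB : B ∈ AC K) : jw j B ∈ V0 K n :=
  Submodule.subset_span ⟨j, B, hB, rfl⟩

lemma V0_cliff : IsCliff (V0 K n) := fun v hv w hw => VS_cliff v (V0_le hv) w (V0_le hw)

lemma V0_g0 {v : Matrix (Sx n) (Sx n) K} (hv : v ∈ V0 K n) : v * g0 K n = -(g0 K n * v) := by
  induction hv using Submodule.span_induction with
  | mem v hv =>
    obtain ⟨j, B, hB, rfl⟩ := hv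
    exact g0_anti j hB
  | zero => simp
  | add a b _ _ ha hb => rw [add_mul, mul_add, ha, hb, neg_add]
  | smul r a _ ha => rw [smul_mul_assoc, mul_smul_comm, ha, smul_neg]

lemma hyp_g0 {P : Matrix (Sx n) (Sx n) K} (hP : P ∈ HypSet (V0 K n)) :
    P * g0 K n = g0 K n * P := by
  obtain ⟨x, hx, y, hy, -, -, -, rfl⟩ := hP
  rw [mul_assoc, V0_g0 hy, mul_neg, ← mul_assoc, V0_g0 hx, neg_mul, neg_neg, mul_assoc]

/-! ### The form -/

lemma prod_sg3 (hn : n % 4 = 3) : ∏ k : Fin n, (-1 : K) ^ (k.val + (n + 1) + 1) = 1 := by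
  rw [Finset.prod_pow_eq_pow_sum, Fin.sum_univ_eq_sum_range (fun k => k + (n + 1) + 1) n]
  have h1 : (∑ k ∈ Finset.range n, (k + (n + 1) + 1)) * 2 = n * (n - 1) + 2 * (n * (n + 2)) := by
    simp only [Finset.sum_add_distrib, Finset.sum_const, Finset.card_range, smul_eq_mul]
    rw [add_mul, add_mul, Finset.sum_range_id_mul_two]
    ring
  have h2 : Even (∑ k ∈ Finset.range n, (k + (n + 1) + 1)) := by
    generalize (∑ k ∈ Finset.range n, (k + (n + 1) + 1)) = s at h1
    rw [Nat.even_iff]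
    obtain ⟨q, rfl⟩ : ∃ q, n = 4 * q + 3 := ⟨n / 4, by omega⟩
    have e : 4 * q + 3 - 1 = 4 * q + 2 := by omega
    rw [e] at h1
    ring_nf at h1
    have : s * 2 = 2 * (18 + q * 42 + q ^ 2 * 24) := by rw [h1]; ring
    omega
  exact h2.neg_one_pow

lemma JS_t3 (hn : n % 4 = 3) : (JS K n).transpose = JS K n := by
  rw [JS, Tn_transpose]
  ext x y
  have := prod_sg3 (K := K) hn
  simp only [Tn, Jf_t, Matrix.smul_apply, smul_eq_mul, Finset.prod_mul_distrib, this, one_mul]

lemma JS_sq3 (hn : n % 4 = 3) : JS K n * JS K n = 1 := by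
  rw [JS, Tn_mul, ← Tn_one]
  ext x y
  have := prod_sg3 (K := K) hn
  simp only [Tn, Jf_sq, Matrix.smul_apply, smul_eq_mul, Finset.prod_mul_distrib, this, one_mul]

/-- The opposite point. -/
def flip (x : Sx n) : Sx n := fun i => 1 - x i

lemma g0_t : (g0 K n).transpose = g0 K n := by
  rw [g0, Tn_transpose]
  congr 1
  funext i
  exact Zm_t

lemma JS_zero {x y : Sx n} (h : y ≠ flip x) : JS K n x y = 0 := by
  obtain ⟨i, hi⟩ := Function.ne_iff.mp h
  have hi' : y i = x i := by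
    unfold flip at hi
    generalize y i = a at *
    generalize x i = b at *
    revert hi
    revert a b
    decide
  have key : ∀ (l : ℕ) (b : Fin 2), Jf K l b b = 0 := by
    intro l b
    unfold Jf
    split_ifs
    · fin_cases b <;> simp [Ym]
    · fin_cases b <;> simp [Xm]
  refine Finset.prod_eq_zero (Finset.mem_univ i) ?_
  rw [hi']
  exact key _ _

lemma g0_ne {x y : Sx n} (h : x ≠ y) : g0 K n x y = 0 := by
  obtain ⟨i, hi⟩ := Function.ne_iff.mp h
  refine Finset.prod_eq_zero (Finset.mem_univ i) ?_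
  generalize x i = a at *
  generalize y i = b at *
  fin_cases a <;> fin_cases b <;> simp_all [Zm]

/-- The properties of the form. -/
structure Form (J : Matrix (Sx n) (Sx n) K) : Prop where
  skew : J.transpose = -J
  sq : J * J = -1
  vec : ∃ e : K, e * e = 1 ∧ ∀ v ∈ V0 K n, v.transpose * J = e • (J * v)
  g0 : g0 K n * J = -(J * g0 K n)
  zero : ∀ x y, y ≠ flip x → J x y = 0

lemma Form.det {J : Matrix (Sx n) (Sx n) K} (h : Form J) : J.det ≠ 0 := by
  intro h0
  have h1 := congrArg Matrix.det h.sq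
  rw [Matrix.det_mul, h0, zero_mul, Matrix.det_neg, Matrix.det_one, mul_one] at h1
  exact pow_ne_zero _ (neg_ne_zero.mpr one_ne_zero) h1.symm

lemma exists_form (hn : Odd n) : ∃ J : Matrix (Sx n) (Sx n) K, Form J := by
  have hg : g0 K n * JS K n = -(JS K n * g0 K n) := by
    have := JS_g0 (K := K) (n := n)
    rw [g0_t, hn.neg_one_pow, neg_one_smul] at this
    exact this
  have h4 : n % 4 = 1 ∨ n % 4 = 3 := by
    obtain ⟨q, rfl⟩ := hn
    omega
  rcases h4 with h4 | h4
  · refine ⟨JS K n, JS_t (Or.inl h4), JS_sq (Or.inl h4), ⟨(-1) ^ n, ?_, fun v hv =>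
      JS_VS v (V0_le hv)⟩, hg, fun x y => JS_zero⟩
    rw [← mul_pow]; simp
  · refine ⟨JS K n * g0 K n, ?_, ?_, ⟨-(-1) ^ n, ?_, ?_⟩, ?_, ?_⟩
    · rw [Matrix.transpose_mul, g0_t, JS_t3 h4, hg]
    · rw [mul_assoc, ← mul_assoc (g0 K n), hg, neg_mul, mul_neg, ← mul_assoc, ← mul_assoc,
        JS_sq3 h4, one_mul, g0_sq]
    · rw [neg_mul_neg, ← mul_pow]; simp
    · intro v hv
      rw [← mul_assoc, JS_VS v (V0_le hv), smul_mul_assoc, mul_assoc, V0_g0 hv, mul_neg, smul_neg,
        neg_smul, mul_assoc]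
    · rw [← mul_assoc, hg, neg_mul]
    · intro x y h
      rw [Matrix.mul_apply]
      apply Finset.sum_eq_zero
      intro z _
      by_cases hz : z = y
      · subst hz
        rw [JS_zero h, zero_mul]
      · rw [g0_ne hz, mul_zero]

/-! ### The two halves -/

/-- The half-spin spaces. -/
def Wh (K : Type*) [Field K] (n : ℕ) (s : K) : Submodule K (Sx n → K) where
  carrier := {v | (g0 K n).mulVec v = s • v}
  add_mem' := by
    intro a b ha hb
    change (g0 K n).mulVec (a + b) = s • (a + b)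
    rw [Matrix.mulVec_add, ha, hb, smul_add]
  zero_mem' := by
    change (g0 K n).mulVec 0 = s • 0
    rw [Matrix.mulVec_zero, smul_zero]
  smul_mem' := by
    intro c a ha
    change (g0 K n).mulVec (c • a) = s • (c • a)
    rw [Matrix.mulVec_smul, ha, smul_comm]

lemma mem_Wh {s : K} {v : Sx n → K} : v ∈ Wh K n s ↔ (g0 K n).mulVec v = s • v := Iff.rfl

lemma Wh_compl [CharZero K] : IsCompl (Wh K n 1) (Wh K n (-1)) := by
  rw [isCompl_iff]
  constructor
  · rw [Submodule.disjoint_def]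
    intro v h1 h2
    rw [mem_Wh] at h1 h2
    rw [h1] at h2
    have h3 : (2 : K) • v = 0 := by
      rw [two_smul]
      nth_rewrite 1 [← one_smul K v]
      rw [h2, neg_one_smul, neg_add_cancel]
    exact (smul_eq_zero.mp h3).resolve_left two_ne_zero
  · rw [codisjoint_iff, eq_top_iff]
    intro v _
    rw [Submodule.mem_sup]
    have hg : (g0 K n).mulVec ((g0 K n).mulVec v) = v := by
      rw [Matrix.mulVec_mulVec, g0_sq, Matrix.one_mulVec]
    refine ⟨(2 : K)⁻¹ • (v + (g0 K n).mulVec v), ?_, (2 : K)⁻¹ • (v - (g0 K n).mulVec v), ?_, ?_⟩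
    · rw [mem_Wh, Matrix.mulVec_smul, Matrix.mulVec_add, hg, one_smul, add_comm]
    · rw [mem_Wh, Matrix.mulVec_smul, Matrix.mulVec_sub, hg, neg_one_smul, ← smul_neg, neg_sub]
    · rw [← smul_add]
      have : v + (g0 K n).mulVec v + (v - (g0 K n).mulVec v) = (2 : K) • v := by
        rw [two_smul]; abel
      rw [this, smul_smul, inv_mul_cancel₀ two_ne_zero, one_smul]

lemma Wh_iso [CharZero K] {J : Matrix (Sx n) (Sx n) K} (hJ : Form J) {s : K} (hs : s * s = 1) :
    ∀ v ∈ Wh K n s, ∀ w ∈ Wh K n s, v ⬝ᵥ J.mulVec w = 0 := by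
  intro v hv w hw
  rw [mem_Wh] at hv hw
  have h1 : (g0 K n).mulVec v ⬝ᵥ J.mulVec w = v ⬝ᵥ (g0 K n).mulVec (J.mulVec w) := by
    rw [Matrix.dotProduct_mulVec v, ← Matrix.mulVec_transpose, g0_t]
  rw [hv, Matrix.mulVec_mulVec, hJ.g0, Matrix.neg_mulVec, ← Matrix.mulVec_mulVec, hw,
    Matrix.mulVec_smul, dotProduct_neg, dotProduct_smul, smul_dotProduct] at h1
  have h2 : (2 * s) * (v ⬝ᵥ J.mulVec w) = 0 := by
    rw [smul_eq_mul] at h1
    linear_combination h1
  rcases mul_eq_zero.mp h2 with h | h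
  · rcases mul_eq_zero.mp h with h | h
    · exact absurd h two_ne_zero
    · rw [h, zero_mul] at hs
      exact absurd hs zero_ne_one
  · exact h

lemma comm_Wh {s : K} {M : Matrix (Sx n) (Sx n) K} (h : M * g0 K n = g0 K n * M) {v : Sx n → K}
    (hv : v ∈ Wh K n s) : M.mulVec v ∈ Wh K n s := by
  rw [mem_Wh] at hv ⊢
  rw [Matrix.mulVec_mulVec, ← h, ← Matrix.mulVec_mulVec, hv, Matrix.mulVec_smul]

lemma anti_Wh {s : K} {M : Matrix (Sx n) (Sx n) K} (h : M * g0 K n = -(g0 K n * M)) {v : Sx n → K}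
    (hv : v ∈ Wh K n s) : M.mulVec v ∈ Wh K n (-s) := by
  rw [mem_Wh] at hv ⊢
  have h' : g0 K n * M = -(M * g0 K n) := by rw [h, neg_neg]
  rw [Matrix.mulVec_mulVec, h', Matrix.neg_mulVec, ← Matrix.mulVec_mulVec, hv, Matrix.mulVec_smul,
    neg_smul]

lemma cen_cochar {P : Matrix (Sx n) (Sx n) K} (hP : P * P = P) (h : P * g0 K n = g0 K n * P) :
    IsCochar (W.Cen (g0 K n)) P := by
  refine ⟨hP, fun t ht => ?_⟩
  refine ⟨⟨t • P + (1 - P), t⁻¹ • P + (1 - P), torus_mul hP ht, ?_⟩, ?_, rfl⟩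
  · have := torus_mul hP (inv_ne_zero ht)
    rwa [inv_inv] at this
  · change (t • P + (1 - P)) * g0 K n = g0 K n * (t • P + (1 - P))
    rw [add_mul, mul_add, smul_mul_assoc, mul_smul_comm, sub_mul, mul_sub, h, one_mul, mul_one]

/-! ### Irreducibility -/

lemma full_irr {U : Submodule K (Sx n → K)} (h : ∀ j, ∀ B ∈ AC K, Pres U (jw j B)) :
    U = ⊥ ∨ U = ⊤ := by
  have d : ∀ j : Fin n, Pres U (loc j (cm K * am K)) ∧ Pres U (loc j (am K * cm K)) := by
    intro j
    have a1 := Pres.mul (h j _ mem_cm) (h j _ mem_am)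
    have a2 := Pres.mul (h j _ mem_am) (h j _ mem_cm)
    rw [jw_mul_same] at a1 a2
    exact ⟨a1, a2⟩
  have dZ : ∀ j : Fin n, Pres U (loc j (Zm K)) := by
    intro j
    rw [Zm_eq, loc_sub]
    exact Pres.sub (d j).2 (d j).1
  have tail : ∀ j : Fin n, Pres U (Tn (fun i => if i < j then Zm K else 1)) := by
    intro j
    apply Pres_Tn
    intro i
    by_cases h : i < j
    · simp only [h, if_true]; exact dZ i
    · simp only [h, if_false, loc_one]; exact Pres_one
  have f : ∀ j : Fin n, ∀ B ∈ AC K, Pres U (loc j B) := by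
    intro j B hB
    have e : Tn (fun i => if i < j then Zm K else 1) * jw j B = loc j B := by
      rw [jw, Tn_mul, loc]
      congr 1
      funext i
      rcases lt_trichotomy i j with h | h | h
      · simp [h, h.ne, h.not_gt, Zm_sq]
      · subst h; simp
      · simp [h, h.ne', h.not_gt, Zm_sq]
    rw [← e]
    exact Pres.mul (tail j) (h j B hB)
  have all : ∀ (j : Fin n) (X : Matrix (Fin 2) (Fin 2) K), Pres U (loc j X) := by
    intro j X
    rw [decomp2 X, loc_add, loc_add, loc_add, loc_smul, loc_smul, loc_smul, loc_smul]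
    exact Pres_add (Pres_add (Pres_add (Pres_smul _ (d j).2) (Pres_smul _ (f j _ mem_am)))
      (Pres_smul _ (f j _ mem_cm))) (Pres_smul _ (d j).1)
  apply trivial_of_single
  intro p r
  rw [single_eq_Tn]
  exact Pres_Tn _ (fun j => all j _)

section irr
variable {k : ℕ}

/-- The invertible vector. -/
def rr (K : Type*) [Field K] (k : ℕ) : Matrix (Sx (k + 2)) (Sx (k + 2)) K := x0 K k + y0 K k

lemma rr_sq : rr K k * rr K k = 1 := by
  have := x0_y0 (K := K) (k := k)
  unfold rr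
  rw [add_mul, mul_add, mul_add, x0_sq, y0_sq, zero_add, add_zero, this]

lemma rr_mem : rr K k ∈ V0 K (k + 2) :=
  Submodule.add_mem _ (jw_mem0 0 mem_cm) (jw_mem0 0 mem_am)

variable {U : Submodule K (Sx (k + 2) → K)}
  (hU : ∀ P ∈ OH (V0 K (k + 2)) (x0 K k) (y0 K k), ∀ v ∈ U, P.mulVec v ∈ U)
include hU

lemma pres_rr (j : Fin (k + 2)) {B : Matrix (Fin 2) (Fin 2) K} (hB : B ∈ AC K) :
    Pres U (rr K k * jw j B) ∧ Pres U (jw j B * rr K k) := by
  obtain ⟨p1, p2, p3, p4⟩ := Pres_cliff x0_sq y0_sq x0_y0 hU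
  by_cases hj : j = 0
  · subst hj
    rcases hB with rfl | rfl
    · constructor
      · have e : rr K k * jw 0 (am K) = x0 K k * y0 K k := by
          unfold rr
          rw [add_mul, y0_sq, add_zero]
        rw [e]; exact p1
      · have e : jw 0 (am K) * rr K k = y0 K k * x0 K k := by
          unfold rr
          rw [mul_add, y0_sq, add_zero]
        rw [e]; exact p2
    · constructor
      · have e : rr K k * jw 0 (cm K) = y0 K k * x0 K k := by
          unfold rr
          rw [add_mul, x0_sq, zero_add]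
        rw [e]; exact p2
      · have e : jw 0 (cm K) * rr K k = x0 K k * y0 K k := by
          unfold rr
          rw [mul_add, x0_sq, zero_add]
        rw [e]; exact p1
  · obtain ⟨q1, q2⟩ := p3 _ (jw_mem0 j hB) (jw_orth hj hB mem_cm) (jw_orth hj hB mem_am)
    constructor
    · unfold rr
      rw [add_mul]
      exact Pres_add q1 q2
    · have e : jw j B * rr K k = -(x0 K k * jw j B + y0 K k * jw j B) := by
        unfold rr
        rw [mul_add, jw_anti' hj hB mem_cm, jw_anti' hj hB mem_am]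
        abel
      rw [e]
      exact Pres_neg (Pres_add q1 q2)

lemma pres_Z (j : Fin (k + 2)) : Pres U (loc j (Zm K)) := by
  obtain ⟨p1, p2, p3, p4⟩ := Pres_cliff x0_sq y0_sq x0_y0 hU
  have d : Pres U (loc j (cm K * am K)) ∧ Pres U (loc j (am K * cm K)) := by
    by_cases hj : j = 0
    · subst hj
      rw [jw_mul_same] at p1 p2
      exact ⟨p1, p2⟩
    · have q : ∀ B ∈ AC K, Pres U (x0 K k * jw j B) ∧ Pres U (y0 K k * jw j B) := fun B hB =>
        p3 _ (jw_mem0 j hB) (jw_orth hj hB mem_cm) (jw_orth hj hB mem_am)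
      have a1 := p4 _ _ (jw_orth hj mem_cm mem_cm) (jw_orth hj mem_cm mem_am)
        (q _ mem_cm).1 (q _ mem_cm).2 (q _ mem_am).1 (q _ mem_am).2
      have a2 := p4 _ _ (jw_orth hj mem_am mem_cm) (jw_orth hj mem_am mem_am)
        (q _ mem_am).1 (q _ mem_am).2 (q _ mem_cm).1 (q _ mem_cm).2
      rw [jw_mul_same] at a1 a2
      exact ⟨a1, a2⟩
  rw [Zm_eq, loc_sub]
  exact Pres.sub d.2 d.1

lemma pres_g0 : Pres U (g0 K (k + 2)) := Pres_Tn _ (fun j => pres_Z hU j)

theorem half_irr [CharZero K] (hUW : U ≤ Wh K (k + 2) 1) : U = ⊥ ∨ U = Wh K (k + 2) 1 := by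
  have key := full_irr (U := U ⊔ U.map (rr K k).mulVecLin) (by
    intro j B hB
    obtain ⟨h1, h2⟩ := pres_rr hU j hB
    intro w hw
    rw [Submodule.mem_sup] at hw ⊢
    obtain ⟨u, hu, _, ⟨u', hu', rfl⟩, rfl⟩ := hw
    refine ⟨(jw j B * rr K k).mulVec u', h2 _ hu', (rr K k).mulVec ((rr K k * jw j B).mulVec u),
      ⟨_, h1 _ hu, rfl⟩, ?_⟩
    rw [Matrix.mulVec_mulVec, ← mul_assoc, rr_sq, one_mul, Matrix.mulVec_add,
      Matrix.mulVecLin_apply, Matrix.mulVec_mulVec]
    exact add_comm _ _)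
  rcases key with h | h
  · left
    rw [eq_bot_iff, ← h]
    exact le_sup_left
  · right
    apply le_antisymm hUW
    intro w hw
    have hw' : w ∈ U ⊔ U.map (rr K k).mulVecLin := by rw [h]; trivial
    rw [Submodule.mem_sup] at hw'
    obtain ⟨u, hu, _, ⟨u', hu', rfl⟩, rfl⟩ := hw'
    have h1 : (rr K k).mulVecLin u' ∈ Wh K (k + 2) (-1) := anti_Wh (V0_g0 rr_mem) (hUW hu')
    have h2 : (rr K k).mulVecLin u' ∈ Wh K (k + 2) 1 := by
      have := Submodule.sub_mem _ hw (hUW hu)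
      rwa [add_sub_cancel_left] at this
    have h3 := (Submodule.disjoint_def.mp Wh_compl.disjoint) _ h2 h1
    rw [h3, add_zero]
    exact hu

end irr

section iso
variable {k : ℕ}

theorem no_iso [CharZero K] {G : Subgroup (Matrix.GeneralLinearGroup (Sx (k + 2)) K)}
    (hG : ∀ P ∈ OH (V0 K (k + 2)) (x0 K k) (y0 K k), IsCochar G P)
    (hP : ∀ P ∈ OH (V0 K (k + 2)) (x0 K k) (y0 K k), P * g0 K (k + 2) = g0 K (k + 2) * P)
    (f : Module.End K (Sx (k + 2) → K)) (hf : ∀ v ∈ Wh K (k + 2) 1, f v ∈ Wh K (k + 2) (-1))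
    (hfg : ∀ g ∈ G, ∀ v ∈ Wh K (k + 2) 1, f ((g : Matrix _ _ K).mulVec v) =
      (g : Matrix _ _ K).mulVec (f v)) : ∀ v ∈ Wh K (k + 2) 1, f v = 0 := by
  have hfP : ∀ P ∈ OH (V0 K (k + 2)) (x0 K k) (y0 K k), ∀ v ∈ Wh K (k + 2) 1,
      f (P.mulVec v) = P.mulVec (f v) := by
    intro P hPm v hv
    obtain ⟨g, hg, hgt⟩ := (hG P hPm).2 2 two_ne_zero
    have h1 := hfg g hg v hv
    have e : (g : Matrix _ _ K) = P + 1 := by
      rw [hgt, two_smul]; abel
    rw [e, Matrix.add_mulVec, Matrix.add_mulVec, Matrix.one_mulVec, Matrix.one_mulVec,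
      map_add] at h1
    exact add_right_cancel h1
  have hU : ∀ P ∈ OH (V0 K (k + 2)) (x0 K k) (y0 K k),
      ∀ w ∈ (Wh K (k + 2) 1).map (LinearMap.id + f), P.mulVec w ∈
        (Wh K (k + 2) 1).map (LinearMap.id + f) := by
    rintro P hPm _ ⟨v, hv, rfl⟩
    refine ⟨P.mulVec v, comm_Wh (hP P hPm) hv, ?_⟩
    rw [LinearMap.add_apply, LinearMap.add_apply, LinearMap.id_apply, LinearMap.id_apply,
      hfP P hPm v hv, Matrix.mulVec_add]
  intro v hv
  obtain ⟨v', hv', e⟩ := pres_g0 hU _ ⟨v, hv, rfl⟩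
  rw [LinearMap.add_apply, LinearMap.add_apply, LinearMap.id_apply, LinearMap.id_apply,
    Matrix.mulVec_add, mem_Wh.mp hv, mem_Wh.mp (hf v hv), one_smul, neg_one_smul] at e
  have h1 : v - v' = f v + f v' := by
    have : v' + f v' = v + -f v := e
    rw [sub_eq_iff_eq_add, add_assoc, add_comm (f v') v', this]
    abel
  have h2 : v - v' ∈ Wh K (k + 2) (-1) := by
    rw [h1]
    exact Submodule.add_mem _ (hf v hv) (hf v' hv')
  have h3 := (Submodule.disjoint_def.mp Wh_compl.disjoint) _ (Submodule.sub_mem _ hv hv') h2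
  have h4 : v' = v := (sub_eq_zero.mp h3).symm
  rw [h3, h4, ← two_smul K] at h1
  exact (smul_eq_zero.mp h1.symm).resolve_left two_ne_zero

/-! ### Ranks -/

/-- The invertible vector orthogonal to the basic pair. -/
def zz (K : Type*) [Field K] (k : ℕ) : Matrix (Sx (k + 2)) (Sx (k + 2)) K :=
  jw 1 (cm K) + jw 1 (am K)

lemma zz_mem : zz K k ∈ V0 K (k + 2) :=
  Submodule.add_mem _ (jw_mem0 1 mem_cm) (jw_mem0 1 mem_am)

lemma zz_sq : zz K k * zz K k = 1 := by
  unfold zz
  rw [add_mul, mul_add, mul_add, jw_mul_same, jw_mul_same, jw_mul_same, jw_mul_same, cm_sq, am_sq,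
    loc_zero, zero_add, add_zero, ← loc_add, cm_am, loc_one]

lemma zz_x : zz K k * x0 K k + x0 K k * zz K k = 0 := by
  unfold zz
  rw [add_mul, mul_add, add_add_add_comm, jw_orth one_ne mem_cm mem_cm,
    jw_orth one_ne mem_am mem_cm, add_zero]

lemma zz_y : zz K k * y0 K k + y0 K k * zz K k = 0 := by
  unfold zz
  rw [add_mul, mul_add, add_add_add_comm, jw_orth one_ne mem_cm mem_am,
    jw_orth one_ne mem_am mem_am, add_zero]

lemma zz_P : zz K k * (x0 K k * y0 K k) = x0 K k * y0 K k * zz K k := by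
  have e1 : zz K k * x0 K k = -(x0 K k * zz K k) := eq_neg_of_add_eq_zero_left zz_x
  have e2 : zz K k * y0 K k = -(y0 K k * zz K k) := eq_neg_of_add_eq_zero_left zz_y
  rw [← mul_assoc, e1, neg_mul, mul_assoc, e2, mul_neg, neg_neg, mul_assoc]

lemma rank_xzz : (x0 K k * zz K k).rank = 2 ^ (k + 1) := by
  rw [← rank_xg (K := K) (k := k)]
  apply le_antisymm
  · have e : x0 K k * zz K k = x0 K k * g0 K (k + 2) * (g0 K (k + 2) * zz K k) := by
      rw [mul_assoc, ← mul_assoc (g0 K (k + 2)), g0_sq, one_mul]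
    rw [e]
    exact Matrix.rank_mul_le_left _ _
  · have e : x0 K k * g0 K (k + 2) = x0 K k * zz K k * (zz K k * g0 K (k + 2)) := by
      rw [mul_assoc, ← mul_assoc (zz K k), zz_sq, one_mul]
    rw [e]
    exact Matrix.rank_mul_le_left _ _

lemma rank_P0 : (x0 K k * y0 K k).rank = 2 ^ (k + 1) := by
  rw [← rank_xg (K := K) (k := k)]
  apply le_antisymm
  · have e : x0 K k * y0 K k = x0 K k * g0 K (k + 2) * (g0 K (k + 2) * y0 K k) := by
      rw [mul_assoc, ← mul_assoc (g0 K (k + 2)), g0_sq, one_mul]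
    rw [e]
    exact Matrix.rank_mul_le_left _ _
  · have e : x0 K k * g0 K (k + 2) = x0 K k * y0 K k * (x0 K k * g0 K (k + 2)) := by
      rw [← mul_assoc, xyx x0_sq x0_y0]
    rw [e]
    exact Matrix.rank_mul_le_left _ _

lemma P0_g0 : x0 K k * y0 K k * g0 K (k + 2) = g0 K (k + 2) * (x0 K k * y0 K k) :=
  hyp_g0 ⟨_, jw_mem0 0 mem_cm, _, jw_mem0 0 mem_am, x0_sq, y0_sq, x0_y0, rfl⟩

lemma fr_le {s t : K} (hst : t = -s) :
    finrank K ((Wh K (k + 2) s).map (x0 K k * y0 K k).mulVecLin) ≤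
      finrank K ((Wh K (k + 2) t).map (x0 K k * y0 K k).mulVecLin) := by
  have hinj : Function.Injective (zz K k).mulVecLin := by
    intro v w h
    have h2 := congrArg (zz K k).mulVec h
    rw [Matrix.mulVecLin_apply, Matrix.mulVecLin_apply, Matrix.mulVec_mulVec,
      Matrix.mulVec_mulVec, zz_sq, Matrix.one_mulVec, Matrix.one_mulVec] at h2
    exact h2
  rw [(Submodule.equivMapOfInjective _ hinj
    ((Wh K (k + 2) s).map (x0 K k * y0 K k).mulVecLin)).finrank_eq]
  apply Submodule.finrank_mono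
  rintro _ ⟨_, ⟨v, hv, rfl⟩, rfl⟩
  refine ⟨(zz K k).mulVec v, ?_, ?_⟩
  · rw [hst]
    exact anti_Wh (V0_g0 zz_mem) hv
  · rw [Matrix.mulVecLin_apply, Matrix.mulVecLin_apply, Matrix.mulVecLin_apply,
      Matrix.mulVec_mulVec, Matrix.mulVec_mulVec, zz_P]

lemma fr_half [CharZero K] :
    finrank K ((Wh K (k + 2) 1).map (x0 K k * y0 K k).mulVecLin) = 2 ^ k ∧
      finrank K ((Wh K (k + 2) (-1)).map (x0 K k * y0 K k).mulVecLin) = 2 ^ k := by
  have h1 := fr_le (K := K) (k := k) (s := 1) (t := -1) rfl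
  have h2 := fr_le (K := K) (k := k) (s := -1) (t := 1) (neg_neg _).symm
  have h3 := Submodule.finrank_sup_add_finrank_inf_eq
    ((Wh K (k + 2) 1).map (x0 K k * y0 K k).mulVecLin)
    ((Wh K (k + 2) (-1)).map (x0 K k * y0 K k).mulVecLin)
  have hle : ∀ s : K, (Wh K (k + 2) s).map (x0 K k * y0 K k).mulVecLin ≤ Wh K (k + 2) s := by
    rintro s _ ⟨v, hv, rfl⟩
    exact comm_Wh P0_g0 hv
  have h4 : (Wh K (k + 2) 1).map (x0 K k * y0 K k).mulVecLin ⊓
      (Wh K (k + 2) (-1)).map (x0 K k * y0 K k).mulVecLin = ⊥ := by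
    rw [eq_bot_iff]
    exact le_trans (inf_le_inf (hle 1) (hle (-1))) Wh_compl.inf_eq_bot.le
  rw [← Submodule.map_sup, Wh_compl.sup_eq_top, h4, finrank_bot, add_zero, Submodule.map_top,
    ← Matrix.rank, rank_P0, pow_succ] at h3
  omega

/-! ### The group is small -/

/-- The zero point. -/
def zp (k : ℕ) : Sx (k + 2) := fun _ => 0
/-- The second point. -/
def wp (k : ℕ) : Sx (k + 2) := fun i => if i.val < 4 then 1 else 0

lemma wp_flip (hk : 3 ≤ k) : wp k ≠ flip (zp k) := by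
  intro h
  have := congrFun h ⟨4, by omega⟩
  simp [wp, flip, zp] at this

lemma zp_flip : zp k ≠ flip (zp k) := by
  intro h
  have := congrFun h 0
  simp [flip, zp] at this

lemma wp_flip2 : wp k ≠ flip (wp k) := by
  intro h
  have := congrFun h 0
  simp [flip, wp] at this

lemma wp_ne : wp k ≠ zp k := by
  intro h
  have := congrFun h 0
  simp [wp, zp] at this

lemma g0_zp : g0 K (k + 2) (zp k) (zp k) = 1 := by
  change ∏ i, Zm K (zp k i) (zp k i) = 1
  refine Finset.prod_eq_one fun i _ => ?_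
  simp [zp, Zm]

lemma g0_wp (hk : 3 ≤ k) : g0 K (k + 2) (wp k) (wp k) = 1 := by
  have h1 : g0 K (k + 2) (wp k) (wp k) = ∏ i : Fin (k + 2), if i.val < 4 then (-1 : K) else 1 := by
    change ∏ i, Zm K (wp k i) (wp k i) = _
    refine Finset.prod_congr rfl fun i _ => ?_
    by_cases h : i.val < 4 <;> simp [wp, Zm, h]
  rw [h1, Fin.prod_univ_eq_prod_range (fun i => if i < 4 then (-1 : K) else 1) (k + 2),
    Finset.prod_ite, Finset.prod_const_one, mul_one, Finset.prod_const]
  have h2 : (Finset.range (k + 2)).filter (fun i => i < 4) = Finset.range 4 := by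
    ext i
    simp only [Finset.mem_filter, Finset.mem_range]
    omega
  rw [h2, Finset.card_range]
  norm_num

lemma g0_mul (M : Matrix (Sx (k + 2)) (Sx (k + 2)) K) (x y : Sx (k + 2)) :
    (g0 K (k + 2) * M) x y = g0 K (k + 2) x x * M x y := by
  rw [Matrix.mul_apply, Finset.sum_eq_single x]
  · intro b _ hb
    rw [g0_ne (Ne.symm hb), zero_mul]
  · intro h; exact absurd (Finset.mem_univ _) h

lemma mul_g0 (M : Matrix (Sx (k + 2)) (Sx (k + 2)) K) (x y : Sx (k + 2)) :
    (M * g0 K (k + 2)) x y = M x y * g0 K (k + 2) y y := by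
  rw [Matrix.mul_apply, Finset.sum_eq_single y]
  · intro b _ hb
    rw [g0_ne hb, mul_zero]
  · intro h; exact absurd (Finset.mem_univ _) h

lemma single_g0 {x y : Sx (k + 2)} (hx : g0 K (k + 2) x x = 1) (hy : g0 K (k + 2) y y = 1) :
    Matrix.single x y (1 : K) * g0 K (k + 2) = Matrix.single x y (1 : K) ∧
      g0 K (k + 2) * Matrix.single x y (1 : K) = Matrix.single x y (1 : K) := by
  constructor
  · ext a b
    rw [mul_g0]
    by_cases h : b = y
    · rw [h, hy, mul_one]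
    · rw [Matrix.single_apply_of_col_ne _ _ (Ne.symm h), zero_mul]
  · ext a b
    rw [g0_mul]
    by_cases h : a = x
    · rw [h, hx, one_mul]
    · rw [Matrix.single_apply_of_row_ne (Ne.symm h), mul_zero]

lemma not_contains [CharZero K] (hk : 3 ≤ k) {J : Matrix (Sx (k + 2)) (Sx (k + 2)) K}
    (hJ : Form J) {G : Subgroup (Matrix.GeneralLinearGroup (Sx (k + 2)) K)}
    (hG : G ≤ Nrm (V0 K (k + 2) * V0 K (k + 2))) :
    ¬ ContainsSU J G (Wh K (k + 2) 1) (Wh K (k + 2) (-1)) := by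
  intro hSU
  set z := zp k with hz
  set w := wp k with hw
  have gz : g0 K (k + 2) z z = 1 := g0_zp
  have gw : g0 K (k + 2) w w = 1 := g0_wp hk
  have hwz : w ≠ z := wp_ne
  have Jzz : J z z = 0 := hJ.zero _ _ zp_flip
  have Jww : J w w = 0 := hJ.zero _ _ wp_flip2
  have Jzw : J z w = 0 := hJ.zero _ _ (wp_flip hk)
  set A : Matrix (Sx (k + 2)) (Sx (k + 2)) K := Matrix.single z w 1 with hA
  set B : Matrix (Sx (k + 2)) (Sx (k + 2)) K := Matrix.single w z 1 with hB
  have AA : A * A = 0 := Matrix.single_mul_single_of_ne _ _ _ _ hwz _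
  have BB : B * B = 0 := Matrix.single_mul_single_of_ne _ _ _ _ hwz.symm _
  have AJB : A * J * B = 0 := by
    rw [hA, hB, Matrix.single_mul_mul_single, Jww]
    simp
  have BJA : B * J * A = 0 := by
    rw [hA, hB, Matrix.single_mul_mul_single, Jzz]
    simp
  have At : A.transpose = B := by rw [hA, Matrix.transpose_single]
  have Bt : B.transpose = A := by rw [hB, Matrix.transpose_single]
  obtain ⟨Ag, gA⟩ := single_g0 (K := K) gz gw
  obtain ⟨Bg, gB⟩ := single_g0 (K := K) gw gz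
  rw [← hA] at Ag gA
  rw [← hB] at Bg gB
  set N := A + J * B * J with hN
  have hNN : N * N = 0 := by
    calc N * N = A * A + A * J * B * J + J * (B * J * A) + J * B * (J * J) * B * J := by
          rw [hN]; noncomm_ring
      _ = 0 := by
        rw [AA, AJB, BJA, hJ.sq, mul_neg, mul_one, neg_mul, neg_mul, mul_assoc J B B, BB]
        simp
  have hsp : N.transpose * J + J * N = 0 := by
    rw [hN, Matrix.transpose_add, Matrix.transpose_mul, Matrix.transpose_mul, At, Bt, hJ.skew]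
    calc (B + -J * (A * -J)) * J + J * (A + J * B * J)
        = B * J + J * A * (J * J) + J * A + (J * J) * B * J := by noncomm_ring
      _ = 0 := by rw [hJ.sq]; noncomm_ring
  have hNg : N * g0 K (k + 2) = g0 K (k + 2) * N := by
    have e1 : J * g0 K (k + 2) = -(g0 K (k + 2) * J) := by rw [hJ.g0, neg_neg]
    have e2 : J * B * J * g0 K (k + 2) = -(J * (B * g0 K (k + 2)) * J) := by
      rw [mul_assoc (J * B), e1]; noncomm_ring
    have e3 : g0 K (k + 2) * (J * B * J) = -(J * (g0 K (k + 2) * B) * J) := by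
      rw [← mul_assoc, ← mul_assoc, hJ.g0]; noncomm_ring
    rw [hN, add_mul, mul_add, Ag, gA, e2, e3, Bg, gB]
  let t : Matrix.GeneralLinearGroup (Sx (k + 2)) K :=
    ⟨1 + N, 1 - N, one_add_mul hNN, one_sub_mul hNN⟩
  have hgt : (1 + N) * g0 K (k + 2) = g0 K (k + 2) * (1 + N) := by
    rw [add_mul, mul_add, one_mul, mul_one, hNg]
  -- the action on the first half
  have hez : (Pi.single z 1 : Sx (k + 2) → K) ∈ Wh K (k + 2) 1 := by
    rw [mem_Wh, one_smul]
    ext x
    rw [Matrix.mulVec_single, MulOpposite.op_one, one_smul, Matrix.col_apply]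
    by_cases h : x = z
    · rw [h, gz, Pi.single_eq_same]
    · rw [g0_ne h, Pi.single_eq_of_ne h]
  have hNv : ∀ v ∈ Wh K (k + 2) 1, N.mulVec v = v w • Pi.single z 1 := by
    intro v hv
    have h1 : J.mulVec v ∈ Wh K (k + 2) (-1) :=
      anti_Wh (by rw [hJ.g0, neg_neg]) hv
    have h2 : J.mulVec v z = 0 := by
      have h3 := congrFun (mem_Wh.mp h1) z
      have h4 : (g0 K (k + 2)).mulVec (J.mulVec v) z = J.mulVec v z := by
        rw [Matrix.mulVec, dotProduct, Finset.sum_eq_single z]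
        · rw [gz, one_mul]
        · intro b _ hb
          rw [g0_ne (Ne.symm hb), zero_mul]
        · intro h; exact absurd (Finset.mem_univ _) h
      rw [h4, Pi.smul_apply, smul_eq_mul] at h3
      have h5 : (2 : K) * J.mulVec v z = 0 := by linear_combination h3
      exact (mul_eq_zero.mp h5).resolve_left two_ne_zero
    rw [hN, Matrix.add_mulVec, ← Matrix.mulVec_mulVec, ← Matrix.mulVec_mulVec, hA, hB,
      Matrix.single_mulVec_eq, Matrix.single_mulVec_eq, h2, one_mul, one_mul, zero_smul,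
      Matrix.mulVec_zero, add_zero]
  have hmem : t ∈ G := by
    refine hSU t (isom_one_add hNN hsp) (fun v hv => comm_Wh hgt hv)
      (fun v hv => comm_Wh hgt hv) ?_
    let f : Dual K (Wh K (k + 2) 1) := (LinearMap.proj w).domRestrict _
    have e : (t : Matrix _ _ K).mulVecLin.restrict (fun v hv => comm_Wh hgt hv) =
        LinearMap.transvection f (⟨Pi.single z 1, hez⟩ : Wh K (k + 2) 1) := by
      apply LinearMap.ext
      intro v
      apply Subtype.ext
      change (1 + N).mulVec v.1 = v.1 + v.1 w • Pi.single z 1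
      rw [Matrix.add_mulVec, Matrix.one_mulVec, hNv _ v.2]
    change LinearMap.det _ = 1
    rw [e, LinearMap.transvection.det]
    change 1 + (Pi.single z 1 : Sx (k + 2) → K) w = 1
    rw [Pi.single_eq_of_ne hwz, add_zero]
  have hP0v : x0 K k * y0 K k ∈ V0 K (k + 2) * V0 K (k + 2) :=
    Submodule.mul_mem_mul (jw_mem0 0 mem_cm) (jw_mem0 0 mem_am)
  have hle : V0 K (k + 2) * V0 K (k + 2) ≤ VS K (k + 2) * VS K (k + 2) :=
    mul_le_mul' V0_le V0_le
  have hZ := hle (hG hmem _ hP0v)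
  change (1 + N) * (x0 K k * y0 K k) * (1 - N) ∈ VS K (k + 2) * VS K (k + 2) at hZ
  have hd : 2 < hammingDist z w := by
    rw [hammingDist, Finset.two_lt_card]
    refine ⟨⟨0, by omega⟩, ?_, ⟨1, by omega⟩, ?_, ⟨2, by omega⟩, ?_, ?_, ?_, ?_⟩
    all_goals simp [hz, hw, zp, wp]
  have hfar := VV_far hZ hd
  have a1 : (x0 K k * y0 K k) z w = 0 := VV_far (hle hP0v) hd
  have hP0d : x0 K k * y0 K k = loc 0 (cm K * am K) := by rw [jw_mul_same]
  have a2 : (x0 K k * y0 K k) w w = 1 := by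
    rw [hP0d, loc_apply, if_pos (fun _ _ => rfl), mul_one]
    simp [hw, wp, cm, am, Matrix.mul_apply, Fin.sum_univ_two]
  have a3 : (x0 K k * y0 K k) z z = 0 := by
    rw [hP0d, loc_apply, if_pos (fun _ _ => rfl), mul_one]
    simp [hz, zp, cm, am, Matrix.mul_apply, Fin.sum_univ_two]
  have a4 : (x0 K k * y0 K k) w z = 0 := VV_far (hle hP0v) (by rwa [hammingDist_comm])
  have r1 : ∀ x, N z x = if x = w then 1 else 0 := by
    intro x
    have h1 : (J * B * J) z x = 0 := by
      rw [mul_assoc, Matrix.mul_apply]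
      apply Finset.sum_eq_zero
      intro y _
      by_cases hy : y = w
      · rw [hy, Jzw, zero_mul]
      · rw [hB, Matrix.single_mul_apply_of_ne _ _ _ _ _ hy, mul_zero]
    rw [hN, Matrix.add_apply, h1, add_zero, hA, Matrix.single_apply]
    by_cases hx : x = w
    · simp [hx]
    · simp [hx, Ne.symm hx]
  have r2 : ∀ x, N x w = if x = z then 1 else 0 := by
    intro x
    have h1 : (J * B * J) x w = 0 := by
      rw [Matrix.mul_apply]
      apply Finset.sum_eq_zero
      intro y _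
      by_cases hy : y = z
      · rw [hy, Jzw, mul_zero]
      · rw [hB, Matrix.mul_single_apply_of_ne _ _ _ _ _ hy, zero_mul]
    rw [hN, Matrix.add_apply, h1, add_zero, hA, Matrix.single_apply]
    by_cases hx : x = z
    · simp [hx]
    · simp [hx, Ne.symm hx]
  have hleft : ∀ (X : Matrix (Sx (k + 2)) (Sx (k + 2)) K) y, (N * X) z y = X w y := by
    intro X y
    rw [Matrix.mul_apply, Finset.sum_eq_single w]
    · rw [r1, if_pos rfl, one_mul]
    · intro b _ hb
      rw [r1, if_neg hb, zero_mul]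
    · intro h; exact absurd (Finset.mem_univ _) h
  have hright : ∀ (X : Matrix (Sx (k + 2)) (Sx (k + 2)) K) x, (X * N) x w = X x z := by
    intro X x
    rw [Matrix.mul_apply, Finset.sum_eq_single z]
    · rw [r2, if_pos rfl, mul_one]
    · intro b _ hb
      rw [r2, if_neg hb, mul_zero]
    · intro h; exact absurd (Finset.mem_univ _) h
  have e : (1 + N) * (x0 K k * y0 K k) * (1 - N) = x0 K k * y0 K k + N * (x0 K k * y0 K k) -
      x0 K k * y0 K k * N - N * (x0 K k * y0 K k * N) := by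
    generalize x0 K k * y0 K k = P
    noncomm_ring
  rw [e, Matrix.sub_apply, Matrix.sub_apply, Matrix.add_apply, hleft, hleft, hright, hright,
    a1, a2, a3, a4] at hfar
  norm_num at hfar

end iso

end UN.EE

namespace UN

open UN.EE

/-- EE: sharpness for `p = q`. -/
theorem exists_half (K : Type*) [Field K] [CharZero K] [IsAlgClosed K] {n : ℕ} (hn : Odd n)
    (hn5 : 5 ≤ n) :
    ∃ (m : Type) (_ : Fintype m) (_ : DecidableEq m) (J : Matrix m m K)
      (G : Subgroup (Matrix.GeneralLinearGroup m K)) (π : Matrix m m K)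
      (W W' : Submodule K (m → K)),
      IsStrongMTPair ⊥ J G π ∧ IsUnitarySplit ⊥ J G W W' ∧
      (∀ f : Module.End K (m → K), (∀ v ∈ W, f v ∈ W') →
        (∀ g ∈ G, ∀ v ∈ W, f ((g : Matrix m m K).mulVec v) = (g : Matrix m m K).mulVec (f v)) →
        ∀ v ∈ W, f v = 0) ∧
      finrank K (W.map π.mulVecLin) = 2 ^ (n - 2) ∧
      finrank K (W'.map π.mulVecLin) = 2 ^ (n - 2) ∧
      (∃ u ∈ G, IsQuadraticOn u ⊤ (2 ^ (n - 2))) ∧
      (∃ u ∈ G, IsQuadraticOn u ⊤ (2 ^ (n - 1))) ∧ ¬ ContainsSU J G W W' := by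
  obtain ⟨k, rfl⟩ : ∃ k, n = k + 2 := ⟨n - 2, by omega⟩
  obtain ⟨J, hJ⟩ := exists_form (K := K) hn
  set V := V0 K (k + 2) with hV
  have hsub : ∀ P ∈ OH V (x0 K k) (y0 K k), P ∈ HypSet V := fun P hP =>
    OH_hyp V0_cliff (jw_mem0 0 mem_cm) (jw_mem0 0 mem_am) x0_sq y0_sq x0_y0 hP
  have hlag : ∀ P ∈ OH V (x0 K k) (y0 K k), P ∈ LagSet J := fun P hP => by
    obtain ⟨e, he, hv⟩ := hJ.vec
    exact hyp_lag he hv (hsub P hP)
  have hEN : EN V (x0 K k) (y0 K k) ≤ GenG (OH V (x0 K k) (y0 K k)) :=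
    EN_le_gen x0_sq y0_sq x0_y0
  have hquad : ∀ w ∈ V, w * x0 K k + x0 K k * w = 0 → w * y0 K k + y0 K k * w = 0 →
      ∀ r, (x0 K k * w).rank = r → ∃ u ∈ GenG (OH V (x0 K k) (y0 K k)),
        IsQuadraticOn u (⊤ : Submodule K (Sx (k + 2) → K)) r := by
    intro w hw hwx hwy r hr
    have hz := eich_sq x0_sq hwx
    obtain ⟨u, hu⟩ := unip_ex hz
    refine ⟨u, hEN (Subgroup.subset_closure ⟨w, hw, hwx, hwy, Or.inl hu⟩), ?_, ?_⟩
    · intro v _
      rw [hu, add_sub_cancel_left, Matrix.mulVec_mulVec, hz, Matrix.zero_mulVec]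
    · rw [hu, add_sub_cancel_left, Submodule.map_top, ← Matrix.rank, hr]
  have hcen : GenG (OH V (x0 K k) (y0 K k)) ≤ W.Cen (g0 K (k + 2)) :=
    GenG_le (W.Cen_closed _) fun P hP => cen_cochar (hlag P hP).1 (hyp_g0 (hsub P hP))
  have hcoch : ∀ P ∈ OH V (x0 K k) (y0 K k), IsCochar (GenG (OH V (x0 K k) (y0 K k))) P :=
    fun P hP => GenG_cochar (hlag P hP).1 hP
  refine ⟨Sx (k + 2), inferInstance, inferInstance, J, GenG (OH V (x0 K k) (y0 K k)),
    x0 K k * y0 K k, Wh K (k + 2) 1, Wh K (k + 2) (-1), ?_, ?_, ?_, ?_, ?_, ?_, ?_, ?_⟩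
  · exact strong_of_orbit_self hJ.skew hJ.det _ _ hlag hEN
  · refine ⟨Wh_compl, Wh_iso hJ (by norm_num), Wh_iso hJ (by norm_num),
      fun g hg v hv => comm_Wh (hcen hg) hv, fun g hg v hv => comm_Wh (hcen hg) hv, ?_, ?_⟩
    · intro U hUW hU
      refine half_irr ?_ hUW
      intro P hP v hv
      obtain ⟨g, hg, hgt⟩ := (hcoch P hP).2 2 two_ne_zero
      have h1 := hU g hg v hv
      have e : (g : Matrix _ _ K) = P + 1 := by
        rw [hgt, two_smul]; abel
      rw [e, Matrix.add_mulVec, Matrix.one_mulVec] at h1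
      have := U.sub_mem h1 hv
      rwa [add_sub_cancel_right] at this
    · intro θ hθ
      rw [Subgroup.mem_bot] at hθ
      subst hθ
      exact Or.inl ⟨fun v hv => hv, fun v hv => hv⟩
  · intro f hf hfg
    exact no_iso hcoch (fun P hP => hyp_g0 (hsub P hP)) f hf hfg
  · exact fr_half.1
  · exact fr_half.2
  · exact hquad _ (jw_mem0 1 mem_cm) (jw_orth one_ne mem_cm mem_cm)
      (jw_orth one_ne mem_cm mem_am) _ rank_xz
  · exact hquad _ zz_mem zz_x zz_y _ rank_xzz
  · exact not_contains (by omega) hJ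
      (GenG_le (Nrm_closed _) (fun P hP => hyp_nrm V0_cliff (hsub P hP)))

end UN
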